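import Pool.Agent.T9h45.CP.Spec

/-!
# Piece H of project CP: the atoms of near-cliques with matchings in the complement
-/

set_option autoImplicit false

namespace Pool.Agent.T9h70.CP

open Finset Classical Pool.T9h45.HY Pool.T9h45.CP

/-- the vertices with `P` -/
noncomputable def fs {V : Type} [Fintype V] (P : V → Prop) : Finset V := univ.filter P

/-- the atom of `v` -/
noncomputable def pp {V : Type} (σ : V → V) (v : V) : Finset V := {v, σ v}

section
variable {V : Type}

theorem mem_fs [Fintype V] {P : V → Prop} {w : V} : w ∈ fs P ↔ P w := by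
  unfold fs
  rw [mem_filter]
  exact ⟨fun h => h.2, fun h => ⟨mem_univ _, h⟩⟩

theorem mem_pp {σ : V → V} {v w : V} : w ∈ pp σ v ↔ w = v ∨ w = σ v := by simp [pp]

theorem pp_sig {σ : V → V} (hσ : ∀ v, σ (σ v) = v) (v : V) : pp σ (σ v) = pp σ v := by
  unfold pp
  rw [hσ]
  exact Finset.pair_comm _ _

theorem pp_eq {σ : V → V} {v w : V} (h : pp σ v = pp σ w) : v = w ∨ v = σ w := by
  have h1 : v ∈ pp σ w := h ▸ mem_pp.2 (Or.inl rfl)
  exact mem_pp.1 h1

theorem cn_le [Fintype V] {P : V → Prop} (s : Finset V) (h : ∀ w, P w → w ∈ s) :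
    cn P ≤ s.card := by
  unfold cn
  exact card_le_card fun w hw => h w (mem_filter.1 hw).2

theorem cn_pp_le [Fintype V] {σ : V → V} {r : Finset V} :
    cn (fun v => pp σ v = r) ≤ r.card := by
  refine cn_le _ fun v hv => ?_
  rw [← hv]
  exact mem_pp.2 (Or.inl rfl)

theorem card_pp_le {σ : V → V} (v : V) : (pp σ v).card ≤ 2 := by
  unfold pp
  exact card_le_two

end

theorem pairs : SPieceH := by
  rintro ⟨D₀, hA⟩
  refine ⟨max D₀ 1000, ?_⟩
  intro V _ G cl σ D h n e p hD hh hcl hcE heh hn hn' hσ hclσ hadj hnu hp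
  have hD0 : D₀ ≤ D := (le_max_left _ _).trans hD
  have hD1 : 1000 ≤ D := (le_max_right _ _).trans hD
  obtain ⟨N, hNd⟩ : ∃ N : V → Finset V, N = fun v => fs (fun w => cl w = cl v ∧ σ w ≠ w) :=
    ⟨_, rfl⟩
  obtain ⟨F, hFd⟩ : ∃ F : V → Finset V, F = fun v => fs (fun w => cl w = cl v ∧ σ w = w) :=
    ⟨_, rfl⟩
  obtain ⟨X, hXd⟩ : ∃ X : V → Finset V, X = fun v => fs (fun w => G.Adj v w ∧ cl w ≠ cl v) :=
    ⟨_, rfl⟩
  have mN : ∀ v w, w ∈ N v ↔ (cl w = cl v ∧ σ w ≠ w) := by
    intro v w; rw [hNd]; exact mem_fs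
  have mF : ∀ v w, w ∈ F v ↔ (cl w = cl v ∧ σ w = w) := by
    intro v w; rw [hFd]; exact mem_fs
  have mX : ∀ v w, w ∈ X v ↔ (G.Adj v w ∧ cl w ≠ cl v) := by
    intro v w; rw [hXd]; exact mem_fs
  have hN : ∀ v, (N v).card = 2 * (n / 4) := by
    intro v; rw [hNd]; exact hnu v
  have hX : ∀ v, (X v).card ≤ e := by
    intro v; rw [hXd]; exact hcE v
  have hF : ∀ v, (N v).card + (F v).card = n := by
    intro v
    rw [← card_union_of_disjoint]
    · rw [← hcl v]
      unfold cn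
      congr 1
      ext w
      rw [mem_union, mN, mF, mem_filter]
      constructor
      · rintro (⟨h1, _⟩ | ⟨h1, _⟩)
        · exact ⟨mem_univ _, h1⟩
        · exact ⟨mem_univ _, h1⟩
      · rintro ⟨_, h1⟩
        by_cases h2 : σ w = w
        · exact Or.inr ⟨h1, h2⟩
        · exact Or.inl ⟨h1, h2⟩
    · rw [Finset.disjoint_left]
      intro w h1 h2
      exact ((mN v w).1 h1).2 ((mF v w).1 h2).2
  have hNi : ∀ v, 2 * ((N v).image (pp σ)).card ≤ (N v).card := by
    intro v
    refine Finset.mul_card_image_le_card _ _ fun a ha => ?_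
    obtain ⟨w, hw, rfl⟩ := mem_image.1 ha
    have hw' := (mN v w).1 hw
    have h1 : ({w, σ w} : Finset V) ⊆ (N v).filter (fun x => pp σ x = pp σ w) := by
      intro x hx
      rw [mem_insert, mem_singleton] at hx
      rw [mem_filter]
      rcases hx with rfl | rfl
      · exact ⟨hw, rfl⟩
      · refine ⟨(mN v _).2 ⟨by rw [hclσ]; exact hw'.1, ?_⟩, pp_sig hσ w⟩
        rw [hσ]
        exact fun h => hw'.2 h.symm
    have h2 : ({w, σ w} : Finset V).card = 2 := card_pair fun h => hw'.2 h.symm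
    rw [← h2]
    exact card_le_card h1
  have hNi' : ∀ v, ((N v).image (pp σ)).card ≤ n / 4 := by
    intro v
    have h1 := hNi v
    rw [hN] at h1
    omega
  have hFi : ∀ v, ((F v).image (pp σ)).card ≤ n - 2 * (n / 4) := by
    intro v
    have h1 := hF v
    rw [hN] at h1
    have h2 : ((F v).image (pp σ)).card ≤ (F v).card := card_image_le
    omega
  have hXi : ∀ v, ((X v ∪ X (σ v)).image (pp σ)).card ≤ 2 * e := by
    intro v
    have h1 : ((X v ∪ X (σ v)).image (pp σ)).card ≤ (X v ∪ X (σ v)).card := card_image_le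
    have h2 := card_union_le (X v) (X (σ v))
    have h3 := hX v
    have h4 := hX (σ v)
    omega
  -- the neighbours of an atom
  have key : ∀ v₀ v w, pp σ v = pp σ v₀ → G.Adj v w → cl w ≠ cl v₀ →
      w ∈ X v₀ ∪ X (σ v₀) := by
    intro v₀ v w h1 h2 h3
    rw [mem_union, mX, mX]
    rcases pp_eq h1 with rfl | rfl
    · exact Or.inl ⟨h2, h3⟩
    · exact Or.inr ⟨h2, by rw [hclσ]; exact h3⟩
  refine hA V (Finset V) G (pp σ) D (n - n / 4 + 2 * e) (n / 4 + 2 * e) p hD0 ?_ ?_ ?_ ?_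
    (by omega) (by omega) (by omega) (by omega) hp
  · intro v w hvw h1
    rcases pp_eq h1 with rfl | rfl
    · exact hvw.ne rfl
    · exact hadj w hvw.symm
  · intro q
    by_cases hq : ∃ v, pp σ v = q
    · obtain ⟨v, hv⟩ := hq
      refine (cn_pp_le (σ := σ) (r := q)).trans ?_
      rw [← hv]
      exact card_pp_le v
    · have h1 : cn (fun v => pp σ v = q) ≤ (∅ : Finset V).card :=
        cn_le _ fun v hv => absurd ⟨v, hv⟩ hq
      rw [card_empty] at h1
      omega
  · intro q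
    by_cases hq : ∃ v, pp σ v = q
    · obtain ⟨v₀, hv₀⟩ := hq
      have h1 : cn (fun r => r ≠ q ∧ ∃ v w, pp σ v = q ∧ pp σ w = r ∧ G.Adj v w) ≤
          (((N v₀).image (pp σ) ∪ (F v₀).image (pp σ)) ∪
            (X v₀ ∪ X (σ v₀)).image (pp σ)).card := by
        refine cn_le _ ?_
        rintro r ⟨_, v, w, h2, h3, h4⟩
        rw [mem_union, mem_union]
        by_cases h5 : cl w = cl v₀
        · left
          by_cases h6 : σ w = w
          · exact Or.inr (mem_image.2 ⟨w, (mF _ _).2 ⟨h5, h6⟩, h3⟩)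
          · exact Or.inl (mem_image.2 ⟨w, (mN _ _).2 ⟨h5, h6⟩, h3⟩)
        · exact Or.inr (mem_image.2 ⟨w, key v₀ v w (h2.trans hv₀.symm) h4 h5, h3⟩)
      have h2 := card_union_le ((N v₀).image (pp σ) ∪ (F v₀).image (pp σ))
        ((X v₀ ∪ X (σ v₀)).image (pp σ))
      have h3 := card_union_le ((N v₀).image (pp σ)) ((F v₀).image (pp σ))
      have h4 := hNi' v₀
      have h5 := hFi v₀
      have h6 := hXi v₀
      omega
    · have h1 : cn (fun r => r ≠ q ∧ ∃ v w, pp σ v = q ∧ pp σ w = r ∧ G.Adj v w) ≤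
          (∅ : Finset (Finset V)).card := by
        refine cn_le _ ?_
        rintro r ⟨_, v, w, h2, _, _⟩
        exact absurd ⟨v, h2⟩ hq
      rw [card_empty] at h1
      omega
  · intro q
    by_cases hq : ∃ v, pp σ v = q
    · obtain ⟨v₀, hv₀⟩ := hq
      have h1 : cn (fun r => (r ≠ q ∧ ∃ v w, pp σ v = q ∧ pp σ w = r ∧ G.Adj v w) ∧
          cn (fun v => pp σ v = r) = 2) ≤
          ((N v₀).image (pp σ) ∪ (X v₀ ∪ X (σ v₀)).image (pp σ)).card := by
        refine cn_le _ ?_
        rintro r ⟨⟨_, v, w, h2, h3, h4⟩, h7⟩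
        rw [mem_union]
        by_cases h5 : cl w = cl v₀
        · left
          refine mem_image.2 ⟨w, (mN _ _).2 ⟨h5, fun h6 => ?_⟩, h3⟩
          have h8 := cn_pp_le (σ := σ) (r := r)
          rw [h7, ← h3] at h8
          unfold pp at h8
          rw [h6, Finset.pair_eq_singleton, card_singleton] at h8
          omega
        · exact Or.inr (mem_image.2 ⟨w, key v₀ v w (h2.trans hv₀.symm) h4 h5, h3⟩)
      have h2 := card_union_le ((N v₀).image (pp σ)) ((X v₀ ∪ X (σ v₀)).image (pp σ))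
      have h4 := hNi' v₀
      have h6 := hXi v₀
      omega
    · have h1 : cn (fun r => (r ≠ q ∧ ∃ v w, pp σ v = q ∧ pp σ w = r ∧ G.Adj v w) ∧
          cn (fun v => pp σ v = r) = 2) ≤ (∅ : Finset (Finset V)).card := by
        refine cn_le _ ?_
        rintro r ⟨⟨_, v, w, h2, _, _⟩, _⟩
        exact absurd ⟨v, h2⟩ hq
      rw [card_empty] at h1
      omega

end Pool.Agent.T9h70.CP

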